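import Pool.Agent.Helper61.QG.Defs
import Pool.Agent.Helper61.QM.StmtS

/-!
# Project QS/QT (MP_0ebdb3_gt), block V: conversion from the matrix level to the operator level

The statement of the hand-in must be printed by the grader in a short form, therefore it is written
with matrices, real valued coefficient functions and `Fin n → ℝ` (`Pool/Agent/Helper61/QM/Defs.lean`),
while the proofs use the operator level (`Pool/Agent/Helper61/QG/Defs.lean`, `V n` = Euclidean space,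
`En n` = operators of `V n`).  This block relates the two.  `vE n : (Fin n → ℝ) ≃L[ℝ] V n`.
-/

set_option autoImplicit false

open Set
open scoped Matrix

namespace Pool.Agent.Helper61.QG

open Pool.Agent.Helper61
open Pool.Agent.Helper61.QS (V En rk R4 SecNN)

/-- `e', B', g', γ'` are the operator versions of `e, B, gM, γ` -/
structure Rel {WW : Type} [NormedAddCommGroup WW] [NormedSpace ℝ WW] {n : ℕ}
    (e : WW → Matrix (Fin n) (Fin n) ℝ) (B : WW → WW → Matrix (Fin n) (Fin n) ℝ)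
    (gM : WW → WW → WW → ℝ) (γ : WW → (Fin n → ℝ) → (Fin n → ℝ) → (Fin n → ℝ) → ℝ)
    (e' : WW → En n) (B' : WW → WW →L[ℝ] En n) (g' : WW → WW →L[ℝ] WW →L[ℝ] ℝ)
    (γ' : WW × V n → V n →L[ℝ] V n →L[ℝ] ℝ) : Prop where
  he : ∀ P v, e' P (vE n v) = vE n (e P *ᵥ v)
  hB : ∀ P u v, B' P u (vE n v) = vE n (B P u *ᵥ v)
  hg : ∀ P u u', g' P u u' = gM P u u'
  hγ : ∀ P v a b, γ' (P, vE n v) (vE n a) (vE n b) = γ P v a b
  ce : ContDiff ℝ 3 e'
  cB : ContDiff ℝ 3 B'
  cg : ContDiff ℝ 3 g'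
  cγ : ContDiff ℝ 3 γ'

/-- **V-CVI** (naturality of the curvature number under linear isomorphisms).
Proof.  `z' = L z`.  `fun y => g y b c` is `(fun y' => g' y' (L b) (L c)) ∘ L`, so its derivative at `z`
applied to `a` is the derivative of `fun y' => g' y' (L b) (L c)` at `L z` applied to `L a`
(`ContinuousLinearEquiv.comp_right_fderiv`, no differentiability needed); the same for `dd` (apply it
twice).  So the `Gam` and `dd` agree and the vectors `cab` correspond under `L`. -/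
def G_CVI : Prop := ∀ (F F' : Type) [NormedAddCommGroup F] [NormedSpace ℝ F]
  [NormedAddCommGroup F'] [NormedSpace ℝ F'] (L : F ≃L[ℝ] F') (g : F → F → F → ℝ)
  (g' : F' → F' →L[ℝ] F' →L[ℝ] ℝ), (∀ z a b, g z a b = g' (L z) (L a) (L b)) →
  ∀ z a b K, QM.IsCurv g z a b K ↔ QS.IsCurv g' (L z) (L a) (L b) K

/-- **V-CVX** (existence of the operator versions).
Proof.  `e' P = vE n ∘ (e P).mulVecLin.toContinuousLinearMap ∘ (vE n).symm`: it is the composition of the
linear (hence smooth, finite dimension) map `A ↦ vE ∘ A ∘ vE⁻¹` from matrices with the matrix valued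
function `e`, which is smooth because its entries are (`contDiff_pi`).  `B' P`: the linear map
`u ↦ vE ∘ B P u ∘ vE⁻¹` made continuous (`LinearMap.toContinuousLinearMap`, finite dimension of `WW`);
smooth by `contDiff_clm_apply_iff` (all evaluations smooth).  `g' P`: the bilinear form `gM P` made
continuous, smooth by `contDiff_clm_apply_iff` twice.  `γ' (P, v) a b = γ P (vE⁻¹ v) (vE⁻¹ a) (vE⁻¹ b)`,
in the same way. -/
def G_CVX : Prop := ∀ (WW : Type) [NormedAddCommGroup WW] [NormedSpace ℝ WW]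
  [FiniteDimensional ℝ WW] (n : ℕ) (e : WW → Matrix (Fin n) (Fin n) ℝ)
  (B : WW → WW → Matrix (Fin n) (Fin n) ℝ) (gM : WW → WW → WW → ℝ)
  (γ : WW → (Fin n → ℝ) → (Fin n → ℝ) → (Fin n → ℝ) → ℝ),
  (∀ i j, ContDiff ℝ 3 (fun P => e P i j)) → (∀ u i j, ContDiff ℝ 3 (fun P => B P u i j)) →
  (∀ P, IsLinearMap ℝ (B P)) → (∀ u u', ContDiff ℝ 3 (fun P => gM P u u')) →
  (∀ P u, IsLinearMap ℝ (gM P u) ∧ IsLinearMap ℝ (fun u' => gM P u' u)) →
  (∀ a b, ContDiff ℝ 3 (fun z : WW × (Fin n → ℝ) => γ z.1 z.2 a b)) →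
  (∀ P v a, IsLinearMap ℝ (γ P v a) ∧ IsLinearMap ℝ (fun b => γ P v b a)) →
  ∃ (e' : WW → En n) (B' : WW → WW →L[ℝ] En n) (g' : WW → WW →L[ℝ] WW →L[ℝ] ℝ)
    (γ' : WW × V n → V n →L[ℝ] V n →L[ℝ] ℝ), Rel e B gM γ e' B' g' γ'

/-- **V-CVB** (bundles, base metrics, fibre metrics).
Proof.  Field by field.  Operators of `V n` are determined by their values on `vE n v`; products of
matrices correspond to products of operators, transposes to adjoints
(`inner (vE a) (vE b) = a ⬝ᵥ b`; `A *ᵥ a ⬝ᵥ b = a ⬝ᵥ Aᵀ *ᵥ b`), `rk (e' P) = (e P).rank` (the range of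
`e' P` is the image of the range of `mulVecLin` under `vE`), `‖vE v‖ < ρ ↔ v ⬝ᵥ v < ρ²` (`ρ > 0`).
`par`: `fderiv ℝ e' P u` is the operator version of the matrix with entries
`fderiv ℝ (fun Q => e Q i j) P u` (linear map applied to a matrix valued function). -/
def G_CVB : Prop := ∀ (WW : Type) [NormedAddCommGroup WW] [NormedSpace ℝ WW]
  [FiniteDimensional ℝ WW] (M : QM.Model WW) (n k : ℕ) (ρ : ℝ)
  (e : WW → Matrix (Fin n) (Fin n) ℝ)
  (B : WW → WW → Matrix (Fin n) (Fin n) ℝ) (gM : WW → WW → WW → ℝ)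
  (γ : WW → (Fin n → ℝ) → (Fin n → ℝ) → (Fin n → ℝ) → ℝ)
  (e' : WW → En n) (B' : WW → WW →L[ℝ] En n) (g' : WW → WW →L[ℝ] WW →L[ℝ] ℝ)
  (γ' : WW × V n → V n →L[ℝ] V n →L[ℝ] ℝ), Rel e B gM γ e' B' g' γ' → 0 < ρ →
  (QM.IsBundle M k e B → IsBundle M k e' B') ∧ (QM.IsBase M gM → IsBase M g') ∧
  (QM.IsFibre M ρ e γ → IsFibre M ρ e' γ')

/-- **V-CVT** (the curvature condition; uses `G_CVI`).
Proof.  Let `U, p, s'` be an operator chart; put `s x i j = ((vE n).symm (s' x (vE k (Pi.single j 1)))) i`,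
so `s' x (vE k w) = vE n (s x *ᵥ w)`; it is a matrix chart (`QM.IsChart`: entries smooth, injectivity and
range transported by `vE`).  Let `L : R4 × (Fin k → ℝ) ≃L R4 × V k` be `id × vE k`.  Then
`QM.gT gM γ B p s z h h' = gT g' γ' B' p s' (L z) (L h) (L h')` for `z.1 ∈ U`: `Nf B' p s' (L z) (L h) =
vE n (QM.Nf B p s z.1 z.2 h.1 h.2)` where `fderiv ℝ s' x a (vE k w) = vE n ((fderiv of the entries) *ᵥ w)`
holds at the points `x ∈ U` where `s'` is differentiable.  `G_CVI` needs the identity at all points `z`; at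
`x ∉ U` it may fail, so first replace the functions by ones agreeing near the point: the numbers
`Gam, dd` at `z` only depend on the germ of the metric at `z` (`Filter.EventuallyEq.fderiv_eq`), and
`U × (Fin k → ℝ)` is open.  (E.g. prove a local version of `G_CVI` with the hypothesis
`∀ᶠ y in 𝓝 z, ∀ a b, g y a b = g' (L y) (L a) (L b)`.)  Finally `‖s' x (vE k w)‖ < ρ ↔
(s x *ᵥ w) ⬝ᵥ (s x *ᵥ w) < ρ²`. -/
def G_CVT : Prop := ∀ (WW : Type) [NormedAddCommGroup WW] [NormedSpace ℝ WW]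
  [FiniteDimensional ℝ WW] (M : QM.Model WW) (n k : ℕ) (ρ : ℝ)
  (e : WW → Matrix (Fin n) (Fin n) ℝ)
  (B : WW → WW → Matrix (Fin n) (Fin n) ℝ) (gM : WW → WW → WW → ℝ)
  (γ : WW → (Fin n → ℝ) → (Fin n → ℝ) → (Fin n → ℝ) → ℝ)
  (e' : WW → En n) (B' : WW → WW →L[ℝ] En n) (g' : WW → WW →L[ℝ] WW →L[ℝ] ℝ)
  (γ' : WW × V n → V n →L[ℝ] V n →L[ℝ] ℝ), Rel e B gM γ e' B' g' γ' → 0 < ρ →
  QM.TubeSec M k ρ e B gM γ → TubeSec M k ρ e' B' g' γ'

/-- **V-CVS** (splittings; back to matrices).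
Proof.  `f j P` = matrix of `f' j P` in the standard basis
(`f j P i l = ((vE n).symm (f' j P (vE n (Pi.single l 1)))) i`): continuous (composition with a linear
map), products/adjoints/ranks correspond as in `G_CVB`. -/
def G_CVS : Prop := ∀ (WW : Type) [NormedAddCommGroup WW] [NormedSpace ℝ WW]
  (M : QM.Model WW) (n : ℕ) (e : WW → Matrix (Fin n) (Fin n) ℝ) (e' : WW → En n),
  (∀ P v, e' P (vE n v) = vE n (e P *ᵥ v)) → Splits M e' → QM.Splits M e

/-- **V-CVST** (the standard metrics, and the flat planes, for `M_m`; the second part uses `G_CVI`).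
Proof.  First part: operator versions `H', K'` of `H, K` as in `G_CVX` (all evaluations smooth, finite
dimension), then `QS.Standard` field by field (`QS.kap`, `QS.eta` unfold to `QM.kap`; `QS.S2` to the
condition `‖q.1‖ ^ 2 + q.2 ^ 2 = 1`).  Second part: `G_CVI` with `L = id`:
`QM.gB gM QM.pol x a a' = QS.gB g' QS.pol x a a'` by `hg` (`QM.pol = QS.pol` by `rfl`). -/
def G_CVST : Prop := ∀ (m : ℤ) (gM : QM.W → QM.W → QM.W → ℝ)
  (g' : QS.W → QS.W →L[ℝ] QS.W →L[ℝ] ℝ), (∀ P u u', g' P u u' = gM P u u') →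
  (QM.Standard m gM → QS.Standard m g') ∧ (QM.FlatPlanes gM → QS.FlatPlanes g')

end Pool.Agent.Helper61.QG
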