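import Pool.Agent.Helper61.QS.Final
import Pool.Agent.Helper22.QG.CVI
import Pool.Agent.Helper23.QG.CVT
import Pool.Agent.Helper35.QG.CVS
import Pool.Agent.Helper35.QG.CVST
import Pool.Agent.Helper35.QG.CVX
import Pool.Agent.Helper87.QG.CVB

/-!
# Project QS (MP_0ebdb3_gt): the theorem for standard souls at the matrix level
-/

set_option autoImplicit false

namespace Pool.Agent.Helper61.QG

open Pool.Agent Pool.Agent.Helper61

theorem mainS (hCVX : G_CVX) (hCVB : G_CVB) (hCVT : G_CVT) (hCVS : G_CVS)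
    (hCVST : G_CVST) : QM.G_MS := by
  intro n k m e B gM γ ρ hE hM hγ hρ hcl hsec
  obtain ⟨e', B', g', γ', hrel⟩ := hCVX QM.W n e B gM γ hE.smooth_e hE.smooth_B hE.linear_B
    hM.smooth hM.linear hγ.smooth hγ.linear
  obtain ⟨h1, h2, h3⟩ := hCVB QM.W (QM.Mm m) n k ρ e B gM γ e' B' g' γ' hrel hρ
  have hE' := h1 hE
  have hM' := h2 hM
  have hγ' := h3 hγ
  have hsec' := hCVT QM.W (QM.Mm m) n k ρ e B gM γ e' B' g' γ' hrel hρ hsec
  have hcl' : QS.Standard m g' ∨ QS.FlatPlanes g' := by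
    rcases hcl with hcl | hcl
    · exact Or.inl ((hCVST m gM g' hrel.hg).1 hcl)
    · exact Or.inr ((hCVST m gM g' hrel.hg).2 hcl)
  have hO : ∀ P : QS.W, QS.orb m P ∈ (QM.Mm m).O P := fun P => ⟨1, by rw [one_smul]; rfl⟩
  have hEq : QS.IsBundle m k e' B' :=
    ⟨hE'.smooth_e, hE'.smooth_B, hE'.idem, hE'.symm, hE'.rank,
      fun ζ hζ P hP => hE'.inv _ ⟨ζ, hζ, rfl⟩ P hP, hE'.skew, hE'.par,
      fun ζ hζ P hP u hu => hE'.inv_B _ ⟨ζ, hζ, rfl⟩ P hP u hu,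
      fun P hP => hE'.horiz P hP _ (hO P)⟩
  have hMq : QS.IsBase m g' :=
    ⟨hM'.smooth, hM'.symm, fun ζ hζ P hP u hu u' hu' => hM'.inv _ ⟨ζ, hζ, rfl⟩ P hP u hu u' hu',
      fun P hP u hu => hM'.horiz P hP _ (hO P) u hu,
      fun P hP u hu h => hM'.pos P hP u hu (fun ⟨τ, hτ⟩ => h τ hτ)⟩
  have hγq : QS.IsFibre m ρ e' γ' :=
    ⟨hγ'.smooth, hγ'.symm, hγ'.pos,
      fun ζ hζ P hP v hv hv' a b ha hb => hγ'.inv _ ⟨ζ, hζ, rfl⟩ P hP v hv hv' a b ha hb⟩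
  have hsq : QS.TubeSec m k ρ e' B' g' γ' := by
    intro U p s hs x hx w hw
    have hs' : IsChart (QM.Mm m) k e' U p s :=
      ⟨hs.isOpen, hs.smooth_p, hs.smooth_s, hs.mem,
        fun x hx c ⟨τ, hτ⟩ => hs.trans x hx c τ hτ, hs.inj, hs.range⟩
    exact hsec' U p s hs' x hx w hw
  obtain ⟨N, f, f1, f2, f3, f4, f5⟩ := QS.allMAIN n k m e' B' g' γ' ρ hEq hMq hγq hρ hcl' hsq
  refine hCVS QM.W (QM.Mm m) n e e' hrel.he ⟨N, f, f1, ?_, f3, f4, f5⟩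
  rintro j g ⟨ζ, hζ, rfl⟩ P hP
  exact f2 j ζ hζ P hP

theorem allMS : QM.G_MS :=
  mainS Helper35.QG.goalCVX Helper87.QG.goalCVB Helper23.QG.goalCVT
    Helper35.QG.goalCVS (Helper35.QG.goalCVST Helper22.QG.goalCVI)

end Pool.Agent.Helper61.QG
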