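import Pool.Agent.Helper61.QS.Defs
import Pool.Agent.Helper61.QM.Defs

/-!
# Project QS/QT (MP_0ebdb3_gt): the model in generic form (operator level)

Same definitions as in `Pool/Agent/Helper61/QS/Defs.lean`, for a general `Model` (`M = X/Γ`) instead of
`M_m`; `V n`, `En n`, `rk`, `IsCurv`, `SecNN` are those of `QS/Basic.lean`, `QS/Defs.lean`.
-/

set_option autoImplicit false

open Set

namespace Pool.Agent.Helper61.QG

open Pool.Agent.Helper61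
open Pool.Agent.Helper61.QS (V En rk R4 IsCurv SecNN Gam dd)

variable {WW : Type} [NormedAddCommGroup WW] [NormedSpace ℝ WW]

/-- A vector bundle of rank `k` over `M` with a metric connection. -/
structure IsBundle (M : QM.Model WW) (k : ℕ) {n : ℕ} (e : WW → En n) (B : WW → WW →L[ℝ] En n) :
    Prop where
  smooth_e : ContDiff ℝ 3 e
  smooth_B : ContDiff ℝ 3 B
  idem : ∀ P ∈ M.X, e P * e P = e P
  symm : ∀ P ∈ M.X, star (e P) = e P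
  rank : ∀ P ∈ M.X, rk (e P) = k
  inv : ∀ g ∈ M.Γ, ∀ P ∈ M.X, e (g P) = e P
  skew : ∀ P ∈ M.X, ∀ u ∈ M.T P, star (B P u) = -B P u
  par : ∀ P ∈ M.X, ∀ u ∈ M.T P, fderiv ℝ e P u = B P u * e P - e P * B P u
  inv_B : ∀ g ∈ M.Γ, ∀ P ∈ M.X, ∀ u ∈ M.T P, B (g P) (g u) = B P u
  horiz : ∀ P ∈ M.X, ∀ u ∈ M.O P, B P u = 0

/-- A Riemannian metric of `M`, pulled back to `X`. -/
structure IsBase (M : QM.Model WW) (gM : WW → WW →L[ℝ] WW →L[ℝ] ℝ) : Prop where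
  smooth : ContDiff ℝ 3 gM
  symm : ∀ P ∈ M.X, ∀ u ∈ M.T P, ∀ u' ∈ M.T P, gM P u u' = gM P u' u
  inv : ∀ g ∈ M.Γ, ∀ P ∈ M.X, ∀ u ∈ M.T P, ∀ u' ∈ M.T P, gM (g P) (g u) (g u') = gM P u u'
  horiz : ∀ P ∈ M.X, ∀ o ∈ M.O P, ∀ u ∈ M.T P, gM P o u = 0
  pos : ∀ P ∈ M.X, ∀ u ∈ M.T P, u ∉ M.O P → 0 < gM P u u

/-- A Riemannian metric along the fibres of `E`, at the points `v` with `‖v‖ < ρ`. -/
structure IsFibre (M : QM.Model WW) (ρ : ℝ) {n : ℕ} (e : WW → En n)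
    (γ : WW × V n → V n →L[ℝ] V n →L[ℝ] ℝ) : Prop where
  smooth : ContDiff ℝ 3 γ
  symm : ∀ P ∈ M.X, ∀ v, e P v = v → ‖v‖ < ρ → ∀ a b, e P a = a → e P b = b →
    γ (P, v) a b = γ (P, v) b a
  pos : ∀ P ∈ M.X, ∀ v, e P v = v → ‖v‖ < ρ → ∀ a, e P a = a → a ≠ 0 → 0 < γ (P, v) a a
  inv : ∀ g ∈ M.Γ, ∀ P ∈ M.X, ∀ v, e P v = v → ‖v‖ < ρ →
    ∀ a b, e P a = a → e P b = b → γ (g P, v) a b = γ (P, v) a b

/-- A local trivialization over a chart. -/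
structure IsChart (M : QM.Model WW) (k : ℕ) {n : ℕ} (e : WW → En n) (U : Set R4) (p : R4 → WW)
    (s : R4 → (V k →L[ℝ] V n)) : Prop where
  isOpen : IsOpen U
  smooth_p : ContDiffOn ℝ 3 p U
  smooth_s : ContDiffOn ℝ 3 s U
  mem : ∀ x ∈ U, p x ∈ M.X
  trans : ∀ x ∈ U, ∀ c : R4, fderiv ℝ p x c ∈ M.O (p x) → c = 0
  inj : ∀ x ∈ U, Function.Injective (s x)
  range : ∀ x ∈ U, ∀ v : V n, e (p x) v = v ↔ ∃ w : V k, s x w = v

/-- the covariant differential of `v = s x w` -/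
noncomputable def Nf {n k : ℕ} (B : WW → WW →L[ℝ] En n) (p : R4 → WW)
    (s : R4 → (V k →L[ℝ] V n)) (z : R4 × V k) : (R4 × V k) →L[ℝ] V n :=
  ((fderiv ℝ s z.1).flip z.2).comp (ContinuousLinearMap.fst ℝ R4 (V k)) +
    (s z.1).comp (ContinuousLinearMap.snd ℝ R4 (V k)) -
    (((B (p z.1)).comp (fderiv ℝ p z.1)).flip (s z.1 z.2)).comp
      (ContinuousLinearMap.fst ℝ R4 (V k))

/-- the metric of the base in the chart `p` -/
noncomputable def gB (gM : WW → WW →L[ℝ] WW →L[ℝ] ℝ) (p : R4 → WW) (x : R4) :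
    R4 →L[ℝ] R4 →L[ℝ] ℝ :=
  (gM (p x)).bilinearComp (fderiv ℝ p x) (fderiv ℝ p x)

/-- the metric of the total space in the local trivialization `(x, w) ↦ (p x, s x w)` -/
noncomputable def gT {n k : ℕ} (gM : WW → WW →L[ℝ] WW →L[ℝ] ℝ)
    (γ : WW × V n → V n →L[ℝ] V n →L[ℝ] ℝ) (B : WW → WW →L[ℝ] En n) (p : R4 → WW)
    (s : R4 → (V k →L[ℝ] V n)) (z : R4 × V k) : (R4 × V k) →L[ℝ] (R4 × V k) →L[ℝ] ℝ :=
  (gB gM p z.1).bilinearComp (ContinuousLinearMap.fst ℝ R4 (V k))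
      (ContinuousLinearMap.fst ℝ R4 (V k)) +
    (γ (p z.1, s z.1 z.2)).bilinearComp (Nf B p s z) (Nf B p s z)

/-- the metric `G` has nonnegative sectional curvature on the tube `‖v‖ < ρ` -/
def TubeSec (M : QM.Model WW) (k : ℕ) (ρ : ℝ) {n : ℕ} (e : WW → En n) (B : WW → WW →L[ℝ] En n)
    (gM : WW → WW →L[ℝ] WW →L[ℝ] ℝ) (γ : WW × V n → V n →L[ℝ] V n →L[ℝ] ℝ) : Prop :=
  ∀ (U : Set R4) (p : R4 → WW) (s : R4 → (V k →L[ℝ] V n)), IsChart M k e U p s →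
    ∀ x ∈ U, ∀ w : V k, ‖s x w‖ < ρ → SecNN (gT gM γ B p s) (x, w)

/-- The bundle is the orthogonal sum of continuous subbundles of rank 2 except possibly one of rank 1. -/
def Splits (M : QM.Model WW) {n : ℕ} (e : WW → En n) : Prop :=
  ∃ (N : ℕ) (f : Fin N → WW → En n),
    (∀ j, ContinuousOn (f j) M.X) ∧
    (∀ j, ∀ g ∈ M.Γ, ∀ P ∈ M.X, f j (g P) = f j P) ∧
    (∀ j, ∀ P ∈ M.X, f j P * f j P = f j P ∧ star (f j P) = f j P ∧
      (rk (f j P) = 2 ∨ (rk (f j P) = 1 ∧ j.val = 0))) ∧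
    (∀ i j, i ≠ j → ∀ P ∈ M.X, f i P * f j P = 0) ∧
    ∀ P ∈ M.X, ∑ j, f j P = e P

/-- the identification of `Fin n → ℝ` with Euclidean space -/
noncomputable def vE (n : ℕ) : (Fin n → ℝ) ≃L[ℝ] V n := (EuclideanSpace.equiv (Fin n) ℝ).symm

end Pool.Agent.Helper61.QG
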